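import Mathlib
import Pool.Agent.X200.FillPara
import Pool.Agent.X200.FinPara
import Pool.Agent.X200.PlankD

/-!
MP_9641f2_gt, Q1: the answer to all parts, under both filling hypotheses.

First conjunct: (a) holds under the countable-filling hypothesis.
Second conjunct: (a) fails under the finite-filling hypothesis.
Third conjunct: (b) and (c) fail under the countable-filling hypothesis (hence also under the
finite-filling hypothesis).
-/

namespace Pool.Agent.Results.MP_9641f2_gt.FullAnswer

open Set

universe u v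

theorem result :
    (∀ (ι : Type u) (X : ι → Type v) [∀ i, TopologicalSpace (X i)] (D : Set (∀ i, X i)),
      T1Space (∀ i, X i) →
      (∀ J : Set ι, J.Countable → J.Nonempty → J.domRestrict '' D = univ) →
      ParacompactSpace D → T2Space D → ∀ i, ParacompactSpace (X i) ∧ T2Space (X i)) ∧
    (∃ (ι : Type) (X : ι → Type) (_ : ∀ i, TopologicalSpace (X i)) (D : Set (∀ i, X i)),
      T1Space (∀ i, X i) ∧ (∀ J : Set ι, J.Finite → J.domRestrict '' D = univ) ∧
      ParacompactSpace D ∧ T2Space D ∧ ∃ i, ¬ ParacompactSpace (X i)) ∧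
    (∃ (ι : Type) (X : ι → Type) (_ : ∀ i, TopologicalSpace (X i)) (D : Set (∀ i, X i)),
      T1Space (∀ i, X i) ∧ (∀ J : Set ι, J.Countable → J.domRestrict '' D = univ) ∧
      T4Space D ∧ T35Space D ∧ ∃ i, ¬ T4Space (X i) ∧ ¬ T35Space (X i)) := by
  refine ⟨?_, ?_, ?_⟩
  · intro ι X _ D h1 hD h2 h3
    exact (Pool.Agent.X200.FillPara.main_pos hD).1
  · obtain ⟨c, hc⟩ := Pool.Agent.X200.FinPara.exists_code
    exact ⟨ℕ, Pool.Agent.X200.FinPara.Fac, inferInstance, Pool.Agent.X200.FinPara.D c,
      inferInstance, Pool.Agent.X200.FinPara.fills c, Pool.Agent.X200.FinPara.para c hc,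
      inferInstance, 0, Pool.Agent.X200.FinPara.not_para⟩
  · obtain ⟨h1, h2, h3, h4⟩ := Pool.Agent.X200.PlankD.main
    refine ⟨_, _, inferInstance, _, h1, h2, h3, inferInstance, none, fun h => h4 ?_,
      fun h => h4 h.toCompletelyRegularSpace⟩
    haveI := h
    exact (inferInstance : T35Space (Pool.Agent.X200.PlankD.X Pool.Agent.X200.PlankD.I₀
      Pool.Agent.X200.PlankD.V₀ none)).toCompletelyRegularSpace

end Pool.Agent.Results.MP_9641f2_gt.FullAnswer
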