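import Mathlib
import Pool.Agent.X200.PlankD

/-!
MP_9641f2_gt, Q1 (b) and (c): a T1 product with a subspace that fills all countable subproducts and
is normal (and so completely regular), although some factor is not completely regular (and so not
normal).
-/

namespace Pool.Agent.Results.MP_9641f2_gt.NormalNotCR

open Set Pool.Agent.X200.PlankD

theorem result : ∃ (ι : Type) (X : ι → Type) (_ : ∀ i, TopologicalSpace (X i))
    (D : Set (∀ i, X i)), T1Space (∀ i, X i) ∧
      (∀ J : Set ι, J.Countable → J.domRestrict '' D = univ) ∧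
      T4Space D ∧ T35Space D ∧ ∃ i, ¬ T4Space (X i) ∧ ¬ T35Space (X i) := by
  obtain ⟨h1, h2, h3, h4⟩ := main
  refine ⟨Option I₀, X I₀ V₀, inferInstance, D (I := I₀) (∅ : V₀), h1, h2, h3, inferInstance,
    none, fun h => h4 ?_, fun h => h4 h.toCompletelyRegularSpace⟩
  haveI := h
  exact (inferInstance : T35Space (X I₀ V₀ none)).toCompletelyRegularSpace

end Pool.Agent.Results.MP_9641f2_gt.NormalNotCR
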