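import Mathlib
import Pool.Agent.X200.FillPara

/-!
MP_9641f2_gt, Q1 (a), countable filling: a positive answer. In fact a paracompact subspace that
fills all countable subproducts of a T1 product is the whole product, and all but countably many
factors are compact.
-/

namespace Pool.Agent.Results.MP_9641f2_gt.ParaCountable

open Set

universe u v

theorem result {ι : Type u} {X : ι → Type v} [∀ i, TopologicalSpace (X i)]
    [T1Space (∀ i, X i)] (D : Set (∀ i, X i))
    (hD : ∀ J : Set ι, J.Countable → J.Nonempty → J.domRestrict '' D = univ)
    [ParacompactSpace D] [T2Space D] :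
    (∀ i, ParacompactSpace (X i) ∧ T2Space (X i)) ∧ (Nonempty ι → D = univ) ∧
      {i | ¬ CompactSpace (X i)}.Countable :=
  Pool.Agent.X200.FillPara.main_pos hD

end Pool.Agent.Results.MP_9641f2_gt.ParaCountable
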