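import Mathlib
import Pool.Agent.X200.FinPara

/-!
MP_9641f2_gt, Q1 (a), finite filling: a negative answer.
-/

namespace Pool.Agent.Results.MP_9641f2_gt.ParaFinite

open Set Pool.Agent.X200.FinPara

theorem result : ∃ (ι : Type) (X : ι → Type) (_ : ∀ i, TopologicalSpace (X i))
    (D : Set (∀ i, X i)), T1Space (∀ i, X i) ∧
      (∀ J : Set ι, J.Finite → J.domRestrict '' D = univ) ∧
      ParacompactSpace D ∧ T2Space D ∧ ∃ i, T2Space (X i) ∧ ¬ ParacompactSpace (X i) := by
  obtain ⟨c, hc⟩ := exists_code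
  exact ⟨ℕ, Fac, inferInstance, D c, inferInstance, fills c, para c hc, inferInstance, 0,
    inferInstance, not_para⟩

end Pool.Agent.Results.MP_9641f2_gt.ParaFinite
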